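import Mathlib

/-!
# Two boundary functions agree almost everywhere
-/

set_option autoImplicit false

namespace Pool.Agent.U823.UA

open MeasureTheory Filter Topology Set

lemma angle_neBot (z : ℂ) :
    (𝓝[{s : ℂ | z.re < s.re ∧ ‖s - z‖ ≤ 1 * (s.re - z.re)}] z).NeBot := by
  have h1 : Tendsto (fun x : ℝ => z + (x : ℂ)) (𝓝[>] (0 : ℝ))
      (𝓝[{s : ℂ | z.re < s.re ∧ ‖s - z‖ ≤ 1 * (s.re - z.re)}] z) := by
    rw [tendsto_nhdsWithin_iff]
    constructor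
    · have h2 : Tendsto (fun x : ℝ => z + (x : ℂ)) (𝓝 0) (𝓝 (z + ((0 : ℝ) : ℂ))) :=
        (continuous_const.add Complex.continuous_ofReal).tendsto _
      rw [Complex.ofReal_zero, add_zero] at h2
      exact h2.mono_left nhdsWithin_le_nhds
    · filter_upwards [self_mem_nhdsWithin] with x hx
      have hx' : 0 < x := hx
      refine ⟨?_, ?_⟩
      · simpa using hx'
      · simp [abs_of_pos hx']
  exact h1.neBot

lemma volume_zero {N : Set ℝ} (hN : dimH N = 0) : volume N = 0 := by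
  have h1 := measure_zero_of_dimH_lt (μ := (volume : Measure ℝ)) (d := 1) (s := N) (by
    rw [NNReal.coe_one, hausdorffMeasure_real]) (by rw [hN]; simp)
  exact h1

lemma ae_eq_of_boundary {L : ℂ → ℂ} {l l' : ℝ → ℂ} {A : ℝ → ℝ → Set ℂ} {e : ℝ → ℂ}
    (hA : ∀ τ, A τ 1 = {s : ℂ | (e τ).re < s.re ∧ ‖s - e τ‖ ≤ 1 * (s.re - (e τ).re)})
    {N N' : Set ℝ} (hN : dimH N = 0) (hN' : dimH N' = 0)
    (h : ∀ τ : ℝ, τ ∉ N → ∀ C : ℝ, Tendsto L (𝓝[A τ C] (e τ)) (𝓝 (l τ)))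
    (h' : ∀ τ : ℝ, τ ∉ N' → ∀ C : ℝ, Tendsto L (𝓝[A τ C] (e τ)) (𝓝 (l' τ))) :
    l =ᵐ[volume] l' := by
  have h1 : ∀ᵐ τ : ℝ, τ ∉ N := measure_eq_zero_iff_ae_notMem.1 (volume_zero hN)
  have h2 : ∀ᵐ τ : ℝ, τ ∉ N' := measure_eq_zero_iff_ae_notMem.1 (volume_zero hN')
  filter_upwards [h1, h2] with τ h3 h4
  have h5 := h τ h3 1
  have h6 := h' τ h4 1
  rw [hA] at h5 h6
  haveI := angle_neBot (e τ)
  exact tendsto_nhds_unique h5 h6

end Pool.Agent.U823.UA
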