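import Pool.Agent.N881.RP.B

/-!
# Almost periods of finitely many frequencies and of the boundary logarithms
-/

set_option autoImplicit false

namespace Pool.Agent.U823.UA

open Complex MeasureTheory Filter Topology Set
open Pool.Agent.TH339.MP

/-- common almost periods of finitely many exponentials are relatively dense -/
theorem rel_dense (T : Finset ℝ) {ε : ℝ} (hε : 0 < ε) :
    ∃ Λ : ℝ, 0 < Λ ∧ ∀ a : ℝ, ∃ τ ∈ Icc a (a + Λ), ∀ l ∈ T, ‖ee l τ - 1‖ ≤ ε := by
  classical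
  let Φ : ℝ → (↥T → ℂ) := fun τ l => ee l τ
  have htb : TotallyBounded (range Φ) := by
    refine (isCompact_closedBall (0 : ↥T → ℂ) 1).totallyBounded.subset ?_
    rintro _ ⟨τ, rfl⟩
    rw [mem_closedBall_zero_iff, pi_norm_le_iff_of_nonneg zero_le_one]
    intro l
    exact (norm_ee _ _).le
  obtain ⟨t, hts, htf, hcov⟩ := htb.exists_subset (Metric.dist_mem_uniformity hε)
  have hch : ∀ y : ↥t, ∃ τ, Φ τ = (y : ↥T → ℂ) := fun y => hts y.2
  choose g hg using hch
  have : Finite ↥t := htf.to_subtype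
  obtain ⟨A, hA⟩ := (Set.finite_range g).bddAbove
  obtain ⟨B, hB⟩ := (Set.finite_range g).bddBelow
  refine ⟨max (A - B) 0 + 1, by positivity, fun a => ?_⟩
  have h1 : Φ (a + A) ∈ range Φ := ⟨_, rfl⟩
  obtain ⟨y, hy, hyd⟩ := mem_iUnion₂.1 (hcov h1)
  have hyd' : dist (Φ (a + A)) y < ε := hyd
  refine ⟨a + A - g ⟨y, hy⟩, ⟨?_, ?_⟩, fun l hl => ?_⟩
  · have := hA ⟨⟨y, hy⟩, rfl⟩
    linarith
  · have h2 := hB ⟨⟨y, hy⟩, rfl⟩
    have h3 := le_max_left (A - B) 0
    linarith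
  · have h2 : dist (Φ (a + A)) (Φ (g ⟨y, hy⟩)) < ε := by rw [hg]; exact hyd'
    have h3 : dist (Φ (a + A) ⟨l, hl⟩) (Φ (g ⟨y, hy⟩) ⟨l, hl⟩) < ε :=
      (dist_le_pi_dist _ _ _).trans_lt h2
    have h4 : ee l (a + A) = ee l (a + A - g ⟨y, hy⟩) * ee l (g ⟨y, hy⟩) := by
      rw [← ee_add]
      congr 1
      ring
    change dist (ee l (a + A)) (ee l (g ⟨y, hy⟩)) < ε at h3
    rw [dist_eq_norm, h4, show ee l (a + A - g ⟨y, hy⟩) * ee l (g ⟨y, hy⟩) - ee l (g ⟨y, hy⟩) =
      (ee l (a + A - g ⟨y, hy⟩) - 1) * ee l (g ⟨y, hy⟩) by ring, norm_mul, norm_ee, mul_one] at h3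
    exact h3.le

variable {b : PP → ℂ} {M : ℝ}

lemma wt_one_le (x : PP) : wt 1 x ≤ 1 := by
  unfold wt
  refine pow_le_one₀ (by positivity) ?_
  rw [Real.rpow_neg_one]
  have := two_le_prime x.1
  exact inv_le_one_of_one_le₀ (by linarith)

/-- almost periods of the partial sums -/
lemma PS_ap (hb : ∀ x, ‖b x‖ ≤ M / (x.2 + 1 : ℕ)) {X : ℕ} {τ δ : ℝ}
    (h : ∀ x ∈ TX X, ‖ee (fr x) τ - 1‖ ≤ δ) (u : ℝ) :
    ‖PS b X (u + τ) - PS b X u‖ ≤ M * (TX X).card * δ := by
  have hM := M_nonneg hb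
  unfold PS
  rw [← Finset.sum_sub_distrib]
  refine (norm_sum_le _ _).trans ?_
  calc ∑ x ∈ TX X, ‖b x * (wt 1 x : ℂ) * ee (fr x) (u + τ) - b x * (wt 1 x : ℂ) * ee (fr x) u‖
      ≤ ∑ x ∈ TX X, M * δ := by
        refine Finset.sum_le_sum fun x hx => ?_
        have e1 : b x * (wt 1 x : ℂ) * ee (fr x) (u + τ) - b x * (wt 1 x : ℂ) * ee (fr x) u =
            b x * (wt 1 x : ℂ) * ee (fr x) u * (ee (fr x) τ - 1) := by
          rw [ee_add]
          ring
        rw [e1, norm_mul, norm_mul, norm_mul, norm_ee, mul_one, Complex.norm_real,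
          Real.norm_of_nonneg (wt_nonneg _ x)]
        have h1 : ‖b x‖ ≤ M := by
          refine (hb x).trans (div_le_self hM ?_)
          exact_mod_cast Nat.succ_le_succ (Nat.zero_le _)
        have h2 := wt_one_le x
        have h3 := wt_nonneg 1 x
        have h4 := h x hx
        calc ‖b x‖ * wt 1 x * ‖ee (fr x) τ - 1‖ ≤ M * 1 * δ := by gcongr
          _ = M * δ := by ring
    _ = M * (TX X).card * δ := by
        rw [Finset.sum_const, nsmul_eq_mul]
        ring

/-- translation of an interval of length one -/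
lemma lint_shift (f : ℝ → ENNReal) (t τ : ℝ) :
    ∫⁻ u in Icc t (t + 1), f (u + τ) = ∫⁻ u in Icc (t + τ) (t + τ + 1), f u := by
  have h1 := (measurePreserving_add_right (volume : Measure ℝ) τ).setLIntegral_comp_preimage_emb
    (measurableEmbedding_addRight τ) f (Icc (t + τ) (t + τ + 1))
  rw [← h1]
  congr 2
  ext u
  simp only [mem_Icc, mem_preimage]
  constructor
  · rintro ⟨h1, h2⟩
    constructor <;> linarith
  · rintro ⟨h1, h2⟩
    constructor <;> linarith

/-- almost periods of the boundary logarithm -/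
theorem bl_ap (hb : ∀ x, ‖b x‖ ≤ M / (x.2 + 1 : ℕ)) {X : ℕ} (hX : 2 ≤ X) {τ δ : ℝ}
    (h : ∀ x ∈ TX X, ‖ee (fr x) τ - 1‖ ≤ δ) (t : ℝ) :
    ∫⁻ u in Icc t (t + 1), ENNReal.ofReal (‖bl b (u + τ) - bl b u‖ ^ 2) ≤
      ENNReal.ofReal (6 * (64800 * M ^ 2 / Real.log X) + 3 * (M * (TX X).card * δ) ^ 2) := by
  have h0 : 0 ≤ Real.log X := Real.log_nonneg (by exact_mod_cast (by omega : 1 ≤ X))
  set A : ℝ := 64800 * M ^ 2 / Real.log X with hA
  have hA0 : 0 ≤ A := by positivity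
  set P : ℝ := M * (TX X).card * δ with hP
  have h1 := (boundary hb).2.2 X hX t
  have h2 := (boundary hb).2.2 X hX (t + τ)
  have h3 : ∀ u : ℝ, ENNReal.ofReal (‖bl b (u + τ) - bl b u‖ ^ 2) ≤
      (ENNReal.ofReal 3 * ENNReal.ofReal (‖bl b (u + τ) - PS b X (u + τ)‖ ^ 2) +
        ENNReal.ofReal 3 * ENNReal.ofReal (‖bl b u - PS b X u‖ ^ 2)) +
        ENNReal.ofReal (3 * P ^ 2) := by
    intro u
    rw [← ENNReal.ofReal_mul (by norm_num), ← ENNReal.ofReal_mul (by norm_num),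
      ← ENNReal.ofReal_add (by positivity) (by positivity),
      ← ENNReal.ofReal_add (by positivity) (by positivity)]
    refine ENNReal.ofReal_le_ofReal ?_
    have e1 : bl b (u + τ) - bl b u = (bl b (u + τ) - PS b X (u + τ)) +
        (PS b X (u + τ) - PS b X u) - (bl b u - PS b X u) := by ring
    have h4 : ‖bl b (u + τ) - bl b u‖ ≤ ‖bl b (u + τ) - PS b X (u + τ)‖ +
        ‖PS b X (u + τ) - PS b X u‖ + ‖bl b u - PS b X u‖ := by
      rw [e1]
      exact (norm_sub_le _ _).trans (add_le_add (norm_add_le _ _) le_rfl)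
    have h5 := PS_ap hb h u
    have h6 := norm_nonneg (PS b X (u + τ) - PS b X u)
    set x := ‖bl b (u + τ) - PS b X (u + τ)‖
    set y := ‖PS b X (u + τ) - PS b X u‖
    set z := ‖bl b u - PS b X u‖
    have hx : 0 ≤ x := norm_nonneg _
    have hz : 0 ≤ z := norm_nonneg _
    have h7 : y ^ 2 ≤ P ^ 2 := pow_le_pow_left₀ h6 h5 2
    have h8 : ‖bl b (u + τ) - bl b u‖ ^ 2 ≤ (x + y + z) ^ 2 :=
      pow_le_pow_left₀ (norm_nonneg _) h4 2
    nlinarith [sq_nonneg (x - y), sq_nonneg (y - z), sq_nonneg (x - z)]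
  have hm1 : AEMeasurable (fun u => ENNReal.ofReal 3 *
      ENNReal.ofReal (‖bl b (u + τ) - PS b X (u + τ)‖ ^ 2)) (volume.restrict (Icc t (t + 1))) := by
    have hq : Measure.QuasiMeasurePreserving (fun u : ℝ => u + τ) volume volume :=
      (measurePreserving_add_right volume τ).quasiMeasurePreserving
    have h4 : AEMeasurable (fun u => bl b (u + τ)) volume :=
      (boundary hb).1.comp_quasiMeasurePreserving hq
    have h5 : AEMeasurable (fun u => PS b X (u + τ)) volume :=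
      ((continuous_PS b X).comp (continuous_add_const τ)).aemeasurable
    exact (((h4.sub h5).norm.pow_const 2).ennreal_ofReal.const_mul _).restrict
  calc ∫⁻ u in Icc t (t + 1), ENNReal.ofReal (‖bl b (u + τ) - bl b u‖ ^ 2)
      ≤ ∫⁻ u in Icc t (t + 1), ((ENNReal.ofReal 3 *
          ENNReal.ofReal (‖bl b (u + τ) - PS b X (u + τ)‖ ^ 2) +
        ENNReal.ofReal 3 * ENNReal.ofReal (‖bl b u - PS b X u‖ ^ 2)) +
        ENNReal.ofReal (3 * P ^ 2)) := lintegral_mono h3
    _ = (ENNReal.ofReal 3 * ∫⁻ u in Icc t (t + 1),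
          ENNReal.ofReal (‖bl b (u + τ) - PS b X (u + τ)‖ ^ 2)) +
        (ENNReal.ofReal 3 * ∫⁻ u in Icc t (t + 1), ENNReal.ofReal (‖bl b u - PS b X u‖ ^ 2)) +
        ENNReal.ofReal (3 * P ^ 2) := by
        rw [lintegral_add_right _ measurable_const, lintegral_add_left' hm1,
          lintegral_const_mul' _ _ ENNReal.ofReal_ne_top,
          lintegral_const_mul' _ _ ENNReal.ofReal_ne_top, setLIntegral_const]
        have hv : volume (Icc t (t + 1)) = 1 := by
          rw [Real.volume_Icc]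
          simp
        rw [hv, mul_one]
    _ ≤ ENNReal.ofReal 3 * ENNReal.ofReal A + ENNReal.ofReal 3 * ENNReal.ofReal A +
        ENNReal.ofReal (3 * P ^ 2) := by
        have h5 : ∫⁻ u in Icc t (t + 1), ENNReal.ofReal (‖bl b (u + τ) - PS b X (u + τ)‖ ^ 2) ≤
            ENNReal.ofReal A := by
          rw [lint_shift (fun u => ENNReal.ofReal (‖bl b u - PS b X u‖ ^ 2)) t τ]
          exact h2
        gcongr
    _ = _ := by
        rw [← ENNReal.ofReal_mul (by norm_num), ← ENNReal.ofReal_add (by positivity)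
          (by positivity), ← ENNReal.ofReal_add (by positivity) (by positivity)]
        congr 1
        ring

end Pool.Agent.U823.UA
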