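import Pool.Agent.U823.UA.Bohr
import Pool.Agent.U823.EW.Ell

/-!
# Almost periods of the logarithm of the modulus on the edge, uniformly in the elliptic curve
-/

set_option autoImplicit false

namespace Pool.Agent.U823.UA

open NumberField IsDedekindDomain MeasureTheory Filter Topology Set
open Pool.Agent.TH339.MP Pool.Agent.TH345.ET Pool.Agent.U823.EW

lemma cpow_nat {q : ℕ} (hq : 0 < q) (σ u : ℝ) :
    (q : ℂ) ^ (-((σ : ℂ) + u * Complex.I)) =
      ((((q : ℝ)) ^ (-σ) : ℝ) : ℂ) * ee (-Real.log q) u := by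
  have h0 : (0 : ℝ) < q := by exact_mod_cast hq
  have hne : (q : ℂ) ≠ 0 := by exact_mod_cast hq.ne'
  rw [neg_add, Complex.cpow_add _ _ hne, Complex.ofReal_cpow h0.le]
  congr 1
  · push_cast
    rfl
  · rw [Complex.cpow_def_of_ne_zero hne, ee]
    congr 1
    rw [← Complex.ofReal_natCast, ← Complex.ofReal_log h0.le]
    push_cast
    ring

lemma abs_log_sub_le {x y c : ℝ} (hc : 0 < c) (hx : c ≤ x) (hy : c ≤ y) :
    |Real.log x - Real.log y| ≤ |x - y| / c := by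
  have key : ∀ {x y : ℝ}, c ≤ x → c ≤ y → Real.log x - Real.log y ≤ |x - y| / c := by
    intro x y hx hy
    have hx0 : 0 < x := hc.trans_le hx
    have hy0 : 0 < y := hc.trans_le hy
    rw [← Real.log_div hx0.ne' hy0.ne']
    refine (Real.log_le_sub_one_of_pos (div_pos hx0 hy0)).trans ?_
    have e : x / y - 1 = (x - y) / y := by field_simp
    rw [e]
    calc (x - y) / y ≤ |x - y| / y := div_le_div_of_nonneg_right (le_abs_self _) hy0.le
      _ ≤ |x - y| / c := div_le_div_of_nonneg_left (abs_nonneg _) hc hy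
  rw [abs_sub_le_iff]
  refine ⟨key hx hy, ?_⟩
  rw [abs_sub_comm]
  exact key hy hx

section
variable {K : Type} [Field K] [NumberField K]

lemma nm_le {v : HeightOneSpectrum (𝓞 K)} (hv : v ∈ (S6 : Finset (HeightOneSpectrum (𝓞 K))))
    {d : ℕ} (hd : Module.finrank ℚ K ≤ d) : nm v ≤ 3 ^ d := by
  classical
  have key : ∀ p : Nat.Primes, (p : ℕ) ≤ 3 → v ∈ (Sp p : Finset (HeightOneSpectrum (𝓞 K))) →
      nm v ≤ 3 ^ d := by
    intro p hp hvp
    have h1 : dg v ≤ d := by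
      refine le_trans ?_ ((sum_dg_le (K := K) p).trans hd)
      exact Finset.single_le_sum (f := fun v => dg v) (fun _ _ => Nat.zero_le _) hvp
    have h2 : pr v = p := (mem_Sp p v).1 hvp
    rw [nm_eq, h2]
    calc (p : ℕ) ^ dg v ≤ 3 ^ dg v := Nat.pow_le_pow_left hp _
      _ ≤ 3 ^ d := Nat.pow_le_pow_right (by norm_num) h1
  unfold S6 at hv
  rw [Finset.mem_union] at hv
  rcases hv with h | h
  · exact key ⟨2, Nat.prime_two⟩ (by norm_num) h
  · exact key ⟨3, Nat.prime_three⟩ (by norm_num) h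

open Classical in
/-- the inverse of a local factor on the edge -/
lemma elf_inv_ap (W : HeightOneSpectrum (𝓞 K) → WeierstrassCurve (𝓞 K))
    (v : HeightOneSpectrum (𝓞 K)) {τ δ : ℝ} (hδ : ‖ee (-Real.log (nm v)) τ - 1‖ ≤ δ) (u : ℝ) :
    ‖(elf W v (ep (u + τ) + 1 / 2))⁻¹ - (elf W v (ep u + 1 / 2))⁻¹‖ ≤ 3 * δ := by
  have hq2 := two_le_nm v
  have hq0 : 0 < nm v := by omega
  have hqr : (2 : ℝ) ≤ nm v := by exact_mod_cast hq2
  have hq1 : (1 : ℝ) ≤ nm v := by linarith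
  have hqp : (0 : ℝ) < nm v := by linarith
  have hs : ∀ u : ℝ, ep u + 1 / 2 = ((3 / 2 : ℝ) : ℂ) + u * Complex.I := by
    intro u
    unfold ep
    push_cast
    ring
  set e : ℂ := if (W v).Δ ∈ v.asIdeal then 0 else (nm v : ℂ) with he
  have hen : ‖e‖ ≤ nm v := by
    rw [he]
    split_ifs
    · simp
    · simp
  have hval : ∀ u : ℝ, (elf W v (ep u + 1 / 2))⁻¹ = 1 - (av W v : ℂ) *
      ((((nm v : ℝ)) ^ (-(3 / 2 : ℝ)) : ℝ) * ee (-Real.log (nm v)) u) +
      e * ((((nm v : ℝ)) ^ (-(3 / 2 : ℝ)) : ℝ) * ee (-Real.log (nm v)) u) ^ 2 := by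
    intro u
    unfold elf lfac
    rw [inv_inv, hs, cpow_two _ hq0.ne', cpow_nat hq0]
  set c : ℝ := ((nm v : ℝ)) ^ (-(3 / 2 : ℝ)) with hc
  have hc0 : 0 ≤ c := Real.rpow_nonneg hqp.le _
  have hqc : (nm v : ℝ) * c ≤ 1 := by
    have h1 : (nm v : ℝ) * c = (nm v : ℝ) ^ (-(1 / 2 : ℝ)) := by
      rw [hc]
      nth_rewrite 1 [← Real.rpow_one (nm v : ℝ)]
      rw [← Real.rpow_add hqp]
      norm_num
    rw [h1]
    exact Real.rpow_le_one_of_one_le_of_nonpos hq1 (by norm_num)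
  have hc1 : c ≤ 1 := Real.rpow_le_one_of_one_le_of_nonpos hq1 (by norm_num)
  rw [hval, hval]
  set E := ee (-Real.log (nm v)) u with hE
  have hE1 : ‖E‖ = 1 := norm_ee _ _
  have hEt : ee (-Real.log (nm v)) (u + τ) = E * ee (-Real.log (nm v)) τ := ee_add _ _ _
  set D := ee (-Real.log (nm v)) τ with hD
  have hD1 : ‖D‖ = 1 := norm_ee _ _
  rw [hEt]
  have e1 : (1 - (av W v : ℂ) * ((c : ℂ) * (E * D)) + e * ((c : ℂ) * (E * D)) ^ 2) -
      (1 - (av W v : ℂ) * ((c : ℂ) * E) + e * ((c : ℂ) * E) ^ 2) =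
      (D - 1) * (-((av W v : ℂ) * ((c : ℂ) * E)) + e * ((c : ℂ) * E) ^ 2 * (D + 1)) := by ring
  rw [e1, norm_mul]
  have h2 : ‖-((av W v : ℂ) * ((c : ℂ) * E)) + e * ((c : ℂ) * E) ^ 2 * (D + 1)‖ ≤ 3 := by
    refine (norm_add_le _ _).trans ?_
    rw [norm_neg, norm_mul, norm_mul, norm_mul, norm_mul, norm_pow, norm_mul, hE1, mul_one,
      Complex.norm_real, Complex.norm_real, Real.norm_eq_abs, Real.norm_of_nonneg hc0]
    have h3 : |av W v| * c ≤ 1 := (mul_le_mul_of_nonneg_right (av_triv W v) hc0).trans hqc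
    have h4 : ‖D + 1‖ ≤ 2 := by
      refine (norm_add_le _ _).trans ?_
      rw [hD1, norm_one]
      norm_num
    have h5 : ‖e‖ * c ^ 2 ≤ 1 := by
      calc ‖e‖ * c ^ 2 ≤ nm v * c ^ 2 := mul_le_mul_of_nonneg_right hen (by positivity)
        _ = (nm v * c) * c := by ring
        _ ≤ 1 * 1 := mul_le_mul hqc hc1 hc0 (by norm_num)
        _ = 1 := by norm_num
    have h6 : ‖e‖ * c ^ 2 * ‖D + 1‖ ≤ 1 * 2 :=
      mul_le_mul h5 h4 (norm_nonneg _) (by norm_num)
    linarith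
  calc ‖D - 1‖ * _ ≤ δ * 3 := mul_le_mul hδ h2 (norm_nonneg _) ((norm_nonneg _).trans hδ)
    _ = 3 * δ := by ring

/-- the factor of the primes above `6` -/
lemma hE_ap (W : HeightOneSpectrum (𝓞 K) → WeierstrassCurve (𝓞 K)) {d : ℕ}
    (hd : Module.finrank ℚ K ≤ d) {τ δ : ℝ} (hδ0 : 0 ≤ δ)
    (hδ : ∀ q : ℕ, q ≤ 3 ^ d → ‖ee (-Real.log q) τ - 1‖ ≤ δ) (u : ℝ) :
    |Real.log ‖hE W (ep (u + τ))‖ - Real.log ‖hE W (ep u)‖| ≤ 144 * d * δ := by
  have hne : ∀ (u : ℝ), ∀ v ∈ (S6 : Finset (HeightOneSpectrum (𝓞 K))),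
      ‖elf W v (ep u + 1 / 2)‖ ≠ 0 := by
    intro u v hv h0
    have h1 := hE_ne W (s := ep u) (by unfold ep; simp)
    apply h1
    unfold hE
    exact Finset.prod_eq_zero hv (norm_eq_zero.1 h0)
  have hlog : ∀ u : ℝ, Real.log ‖hE W (ep u)‖ =
      ∑ v ∈ (S6 : Finset (HeightOneSpectrum (𝓞 K))), Real.log ‖elf W v (ep u + 1 / 2)‖ := by
    intro u
    unfold hE
    rw [norm_prod, Real.log_prod (hne u)]
  have hlow : ∀ (u : ℝ) (v : HeightOneSpectrum (𝓞 K)), 1 / 24 ≤ ‖(elf W v (ep u + 1 / 2))⁻¹‖ := by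
    intro u v
    have h1 : Tendsto (fun x : ℝ => elf W v (1 + u * Complex.I + x + 1 / 2 : ℂ)) (𝓝[>] 0)
        (𝓝 (elf W v (ep u + 1 / 2))) := by
      have h2 : ContinuousAt (fun s : ℂ => elf W v (s + 1 / 2)) (ep u) := by
        refine ContinuousAt.comp (g := elf W v) (f := fun s : ℂ => s + 1 / 2) ?_
          (continuous_id.add continuous_const).continuousAt
        refine (elf_analytic W v ?_).continuousAt
        unfold ep
        simp
        norm_num
      exact h2.tendsto.comp (tendsto_ep u)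
    have h3 : ‖elf W v (ep u + 1 / 2)‖ ≤ 24 := by
      refine le_of_tendsto h1.norm ?_
      filter_upwards [self_mem_nhdsWithin] with x hx
      refine (elf_triv W v ?_).1
      have hx' : 0 < x := hx
      simp
      linarith
    by_cases h0 : ‖elf W v (ep u + 1 / 2)‖ = 0
    · -- impossible, but harmless: the factor is an inverse of a nonzero number
      exfalso
      have h4 : elf W v (ep u + 1 / 2) ≠ 0 := by
        unfold elf lfac
        refine inv_ne_zero ?_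
        refine den_ne (two_le_nm v) (av_triv W v) ?_ ?_
        · split_ifs
          · simp
          · simp
        · unfold ep
          simp
          norm_num
      exact h4 (norm_eq_zero.1 h0)
    · have h5 : 0 < ‖elf W v (ep u + 1 / 2)‖ := lt_of_le_of_ne (norm_nonneg _) (Ne.symm h0)
      rw [norm_inv, one_div]
      exact inv_anti₀ h5 h3
  rw [hlog, hlog, ← Finset.sum_sub_distrib]
  refine (Finset.abs_sum_le_sum_abs _ _).trans ?_
  have hterm : ∀ v ∈ (S6 : Finset (HeightOneSpectrum (𝓞 K))),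
      |Real.log ‖elf W v (ep (u + τ) + 1 / 2)‖ - Real.log ‖elf W v (ep u + 1 / 2)‖| ≤ 72 * δ := by
    intro v hv
    have h1 := elf_inv_ap W v (hδ (nm v) (nm_le hv hd)) u
    have h2 := abs_log_sub_le (by norm_num) (hlow (u + τ) v) (hlow u v)
    rw [norm_inv, norm_inv, Real.log_inv, Real.log_inv] at h2
    have h3 : |‖(elf W v (ep (u + τ) + 1 / 2))⁻¹‖ - ‖(elf W v (ep u + 1 / 2))⁻¹‖| ≤ 3 * δ :=
      (abs_norm_sub_norm_le _ _).trans h1
    rw [norm_inv, norm_inv] at h3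
    have e1 : Real.log ‖elf W v (ep (u + τ) + 1 / 2)‖ - Real.log ‖elf W v (ep u + 1 / 2)‖ =
        -(-Real.log ‖elf W v (ep (u + τ) + 1 / 2)‖ - -Real.log ‖elf W v (ep u + 1 / 2)‖) := by ring
    rw [e1, abs_neg]
    refine h2.trans ?_
    rw [div_le_iff₀ (by norm_num)]
    linarith
  refine (Finset.sum_le_sum hterm).trans ?_
  rw [Finset.sum_const, nsmul_eq_mul]
  have h4 := card_S6 (K := K)
  have h5 : (Module.finrank ℚ K : ℝ) ≤ d := by exact_mod_cast hd
  have h6 : 0 ≤ 72 * δ := by positivity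
  calc _ ≤ (2 * (Module.finrank ℚ K : ℝ)) * (72 * δ) := mul_le_mul_of_nonneg_right h4 h6
    _ ≤ (2 * d) * (72 * δ) := mul_le_mul_of_nonneg_right (by linarith) h6
    _ = 144 * d * δ := by ring

/-- the logarithm of the modulus on the edge -/
noncomputable def Lg (W : HeightOneSpectrum (𝓞 K) → WeierstrassCurve (𝓞 K)) (b : PP → ℂ)
    (u : ℝ) : ℝ := Real.log ‖bv b (hE W) u‖

lemma Lg_eq (W : HeightOneSpectrum (𝓞 K) → WeierstrassCurve (𝓞 K)) (b : PP → ℂ) (u : ℝ) :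
    Lg W b u = Real.log ‖hE W (ep u)‖ + (bl b u).re := by
  unfold Lg bv
  rw [norm_mul, Real.log_mul (norm_ne_zero_iff.2 (hE_ne W (by unfold ep; simp)))
    (norm_ne_zero_iff.2 (Complex.exp_ne_zero _)), Complex.norm_exp, Real.log_exp]

end

/-- **Common almost periods.** -/
theorem common (d : ℕ) {η : ℝ} (hη : 0 < η) : ∃ Λ : ℝ, 0 < Λ ∧ ∀ a : ℝ, ∃ τ ∈ Icc a (a + Λ),
    ∀ (K : Type) [Field K] [NumberField K] (W : HeightOneSpectrum (𝓞 K) → WeierstrassCurve (𝓞 K))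
      (b : PP → ℂ), Module.finrank ℚ K ≤ d →
      (∀ x, ‖b x‖ ≤ ((Module.finrank ℚ K : ℝ) * 2) / (x.2 + 1 : ℕ)) → ∀ t : ℝ,
      ∫⁻ u in Icc t (t + 1), ENNReal.ofReal ((Lg W b (u + τ) - Lg W b u) ^ 2) ≤
        ENNReal.ofReal η := by
  set M : ℝ := 2 * d with hM
  have hM0 : 0 ≤ M := by positivity
  -- the choice of `X`
  obtain ⟨X, hX2, hX⟩ : ∃ X : ℕ, 2 ≤ X ∧ 12 * (64800 * M ^ 2 / Real.log X) ≤ η / 3 := by
    have h1 : Tendsto (fun X : ℕ => Real.log X) atTop atTop :=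
      Real.tendsto_log_atTop.comp tendsto_natCast_atTop_atTop
    have h2 : ∀ᶠ X : ℕ in atTop, 12 * (64800 * M ^ 2) * 3 / η + 1 ≤ Real.log X :=
      h1.eventually_ge_atTop _
    obtain ⟨X, h3, h4⟩ := (h2.and (eventually_ge_atTop 2)).exists
    refine ⟨X, h4, ?_⟩
    have h5 : 0 < Real.log X := by
      refine lt_of_lt_of_le ?_ h3
      positivity
    rw [← mul_div_assoc, div_le_iff₀ h5]
    have h6 : 12 * (64800 * M ^ 2) * 3 / η ≤ Real.log X := by linarith
    rw [div_le_iff₀ hη] at h6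
    linarith
  -- the choice of `δ`
  set B : ℝ := 6 * (M * (TX X).card) ^ 2 + 2 * (144 * d) ^ 2 + 1 with hB
  have hB0 : 0 < B := by positivity
  set δ : ℝ := Real.sqrt (η / (3 * B)) with hδ
  have hδ2 : δ ^ 2 = η / (3 * B) := Real.sq_sqrt (by positivity)
  have hδ0 : 0 < δ := Real.sqrt_pos.2 (by positivity)
  obtain ⟨Λ, hΛ, H⟩ := rel_dense (((TX X).image fr) ∪
    ((Finset.range (3 ^ d + 1)).image fun q : ℕ => -Real.log q)) hδ0
  refine ⟨Λ, hΛ, fun a => ?_⟩
  obtain ⟨τ, hτ, hτ2⟩ := H a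
  refine ⟨τ, hτ, ?_⟩
  intro K _ _ W b hd hb t
  have hdr : (Module.finrank ℚ K : ℝ) ≤ d := by exact_mod_cast hd
  have hb' : ∀ x, ‖b x‖ ≤ M / (x.2 + 1 : ℕ) := by
    intro x
    refine (hb x).trans ?_
    refine div_le_div_of_nonneg_right ?_ (Nat.cast_nonneg _)
    rw [hM]
    linarith
  have h1 : ∀ x ∈ TX X, ‖ee (fr x) τ - 1‖ ≤ δ := fun x hx =>
    hτ2 _ (Finset.mem_union_left _ (Finset.mem_image_of_mem _ hx))
  have h2 : ∀ q : ℕ, q ≤ 3 ^ d → ‖ee (-Real.log q) τ - 1‖ ≤ δ := fun q hq =>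
    hτ2 _ (Finset.mem_union_right _ (Finset.mem_image_of_mem _
      (Finset.mem_range.2 (Nat.lt_succ_of_le hq))))
  have h3 := bl_ap hb' hX2 h1 t
  have h4 := hE_ap W hd hδ0.le h2
  have h5 : ∀ u : ℝ, ENNReal.ofReal ((Lg W b (u + τ) - Lg W b u) ^ 2) ≤
      ENNReal.ofReal 2 * ENNReal.ofReal (‖bl b (u + τ) - bl b u‖ ^ 2) +
      ENNReal.ofReal (2 * (144 * d * δ) ^ 2) := by
    intro u
    rw [← ENNReal.ofReal_mul (by norm_num), ← ENNReal.ofReal_add (by positivity) (by positivity)]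
    refine ENNReal.ofReal_le_ofReal ?_
    rw [Lg_eq, Lg_eq]
    have h6 := h4 u
    have h7 : |(bl b (u + τ)).re - (bl b u).re| ≤ ‖bl b (u + τ) - bl b u‖ := by
      rw [← Complex.sub_re]
      exact Complex.abs_re_le_norm _
    set x := Real.log ‖hE W (ep (u + τ))‖ - Real.log ‖hE W (ep u)‖ with hx
    set y := (bl b (u + τ)).re - (bl b u).re with hy
    have e1 : Real.log ‖hE W (ep (u + τ))‖ + (bl b (u + τ)).re -
        (Real.log ‖hE W (ep u)‖ + (bl b u).re) = x + y := by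
      rw [hx, hy]
      ring
    rw [e1]
    have h8 : x ^ 2 ≤ (144 * d * δ) ^ 2 := by
      rw [← sq_abs x]
      exact pow_le_pow_left₀ (abs_nonneg _) h6 2
    have h9 : y ^ 2 ≤ ‖bl b (u + τ) - bl b u‖ ^ 2 := by
      rw [← sq_abs y]
      exact pow_le_pow_left₀ (abs_nonneg _) h7 2
    nlinarith [sq_nonneg (x - y)]
  refine (lintegral_mono h5).trans ?_
  rw [lintegral_add_right _ measurable_const, lintegral_const_mul' _ _ ENNReal.ofReal_ne_top,
    setLIntegral_const]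
  have hv : volume (Icc t (t + 1)) = 1 := by
    rw [Real.volume_Icc]
    simp
  rw [hv, mul_one]
  calc (ENNReal.ofReal 2 * ∫⁻ u in Icc t (t + 1), ENNReal.ofReal (‖bl b (u + τ) - bl b u‖ ^ 2)) +
        ENNReal.ofReal (2 * (144 * d * δ) ^ 2)
      ≤ ENNReal.ofReal 2 * ENNReal.ofReal (6 * (64800 * M ^ 2 / Real.log X) +
        3 * (M * (TX X).card * δ) ^ 2) + ENNReal.ofReal (2 * (144 * d * δ) ^ 2) := by gcongr
    _ = ENNReal.ofReal (2 * (6 * (64800 * M ^ 2 / Real.log X) + 3 * (M * (TX X).card * δ) ^ 2) +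
        2 * (144 * d * δ) ^ 2) := by
        have h0 : 0 ≤ Real.log X := Real.log_nonneg (by exact_mod_cast (by omega : 1 ≤ X))
        rw [← ENNReal.ofReal_mul (by norm_num), ← ENNReal.ofReal_add (by positivity)
          (by positivity)]
    _ ≤ ENNReal.ofReal η := by
        refine ENNReal.ofReal_le_ofReal ?_
        have e1 : 2 * (6 * (64800 * M ^ 2 / Real.log X) + 3 * (M * (TX X).card * δ) ^ 2) +
            2 * (144 * d * δ) ^ 2 = 12 * (64800 * M ^ 2 / Real.log X) + (B - 1) * δ ^ 2 := by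
          rw [hB]
          ring
        rw [e1, hδ2]
        have h6 : (B - 1) * (η / (3 * B)) ≤ η / 3 := by
          have : (B - 1) * (η / (3 * B)) = η / 3 * ((B - 1) / B) := by
            field_simp
          rw [this]
          refine mul_le_of_le_one_right (by positivity) ?_
          rw [div_le_one hB0]
          linarith
        linarith

end Pool.Agent.U823.UA
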