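import Mathlib

/-!
# Uniform mean values from relatively dense almost periods
-/

set_option autoImplicit false

namespace Pool.Agent.U823.UA

open MeasureTheory Filter Topology Set

variable {f : ℝ → ℝ}

/-- the integral of a nonnegative function with bounded unit integrals -/
lemma int_le (hf : ∀ a c, IntervalIntegrable f volume a c) (hf0 : ∀ u, 0 ≤ f u) {C : ℝ}
    (hC : ∀ t, ∫ u in t..(t + 1), f u ≤ C) (t : ℝ) {H : ℝ} (hH : 0 ≤ H) :
    ∫ u in t..(t + H), f u ≤ C * (H + 1) := by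
  have hC0 : 0 ≤ C := (intervalIntegral.integral_nonneg (by linarith) fun u _ => hf0 u).trans (hC t)
  have key : ∀ n : ℕ, ∫ u in t..(t + n), f u ≤ C * n := by
    intro n
    induction n with
    | zero => simp
    | succ n ih =>
      rw [← intervalIntegral.integral_add_adjacent_intervals (hf t (t + n)) (hf _ _)]
      have h1 := hC (t + n)
      push_cast
      rw [← add_assoc]
      linarith
  have h1 := Nat.le_ceil H
  have h2 := Nat.ceil_lt_add_one hH
  have h3 : ∫ u in t..(t + H), f u ≤ ∫ u in t..(t + (⌈H⌉₊ : ℝ)), f u := by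
    refine intervalIntegral.integral_mono_interval le_rfl (by linarith) (by linarith) ?_ (hf _ _)
    exact ae_of_all _ fun u => hf0 u
  refine h3.trans ((key _).trans ?_)
  exact mul_le_mul_of_nonneg_left h2.le hC0

/-- two means over intervals of the same length -/
lemma mean_shift (hf : ∀ a c, IntervalIntegrable f volume a c) {C ε Λ : ℝ} (hε : 0 ≤ ε)
    (hΛ : 0 ≤ Λ) (hC : ∀ t, ∫ u in t..(t + 1), |f u| ≤ C)
    (hap : ∀ a : ℝ, ∃ τ ∈ Icc a (a + Λ), ∀ t, ∫ u in t..(t + 1), |f (u + τ) - f u| ≤ ε)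
    (t t' : ℝ) {H : ℝ} (hH : 0 ≤ H) :
    |(∫ u in t..(t + H), f u) - ∫ u in t'..(t' + H), f u| ≤ ε * (H + 1) + 2 * (C * (Λ + 1)) := by
  obtain ⟨τ, hτ, h⟩ := hap (t' - t)
  have hfτ : ∀ a c, IntervalIntegrable (fun u => f (u + τ)) volume a c := by
    intro a c
    have := (hf (a + τ) (c + τ)).comp_add_right τ
    simpa using this
  have h1 : ∫ u in t..(t + H), |f (u + τ) - f u| ≤ ε * (H + 1) :=
    int_le (fun a c => ((hfτ a c).sub (hf a c)).abs) (fun u => abs_nonneg _) h t hH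
  have h2 : |(∫ u in t..(t + H), f (u + τ)) - ∫ u in t..(t + H), f u| ≤ ε * (H + 1) := by
    rw [← intervalIntegral.integral_sub (hfτ _ _) (hf _ _)]
    exact (intervalIntegral.abs_integral_le_integral_abs (by linarith)).trans h1
  have h3 : ∫ u in t..(t + H), f (u + τ) = ∫ u in (t + τ)..(t + H + τ), f u :=
    intervalIntegral.integral_comp_add_right f τ
  -- the integral over the shifted interval
  have h4 : (∫ u in (t + τ)..(t + H + τ), f u) - ∫ u in t'..(t' + H), f u =
      (∫ u in (t' + H)..(t + H + τ), f u) - ∫ u in t'..(t + τ), f u := by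
    have e1 := intervalIntegral.integral_add_adjacent_intervals (hf t' (t + τ)) (hf (t + τ) (t + H + τ))
    have e2 := intervalIntegral.integral_add_adjacent_intervals (hf t' (t' + H))
      (hf (t' + H) (t + H + τ))
    linarith
  have h5 : ∀ s δ : ℝ, 0 ≤ δ → δ ≤ Λ → |∫ u in s..(s + δ), f u| ≤ C * (Λ + 1) := by
    intro s δ h0 h1
    have hC0 : 0 ≤ C := (intervalIntegral.integral_nonneg (by linarith)
      fun u _ => abs_nonneg (f u)).trans (hC s)
    refine (intervalIntegral.abs_integral_le_integral_abs (by linarith)).trans ?_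
    refine (int_le (fun a c => (hf a c).abs) (fun u => abs_nonneg _) hC s h0).trans ?_
    exact mul_le_mul_of_nonneg_left (by linarith) hC0
  have h6 := h5 (t' + H) (t + τ - t') (by linarith [hτ.1]) (by linarith [hτ.2])
  have h7 := h5 t' (t + τ - t') (by linarith [hτ.1]) (by linarith [hτ.2])
  rw [show t' + H + (t + τ - t') = t + H + τ by ring] at h6
  rw [show t' + (t + τ - t') = t + τ by ring] at h7
  rw [h3] at h2
  have h8 : |(∫ u in (t + τ)..(t + H + τ), f u) - ∫ u in t'..(t' + H), f u| ≤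
      2 * (C * (Λ + 1)) := by
    rw [h4]
    refine (abs_sub _ _).trans ?_
    linarith
  have e3 : (∫ u in t..(t + H), f u) - ∫ u in t'..(t' + H), f u =
      -((∫ u in (t + τ)..(t + H + τ), f u) - ∫ u in t..(t + H), f u) +
      ((∫ u in (t + τ)..(t + H + τ), f u) - ∫ u in t'..(t' + H), f u) := by ring
  rw [e3]
  refine (abs_add_le _ _).trans ?_
  rw [abs_neg]
  exact add_le_add h2 h8

/-- **Mean values.** -/
theorem mean_exists (hf : ∀ a c, IntervalIntegrable f volume a c) {C : ℝ}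
    (hC : ∀ t, ∫ u in t..(t + 1), |f u| ≤ C)
    (Λ : ℝ → ℝ) (hΛ : ∀ ε, 0 < ε → 0 ≤ Λ ε)
    (hap : ∀ ε, 0 < ε → ∀ a : ℝ, ∃ τ ∈ Icc a (a + Λ ε),
      ∀ t, ∫ u in t..(t + 1), |f (u + τ) - f u| ≤ ε) :
    ∃ μ : ℝ, ∀ δ, 0 < δ → ∀ t H : ℝ, 1 ≤ H → 16 * (C * (Λ (δ / 16) + 1)) ≤ δ * H →
      |H⁻¹ * (∫ u in t..(t + H), f u) - μ| ≤ δ := by
  have hC0 : 0 ≤ C := (intervalIntegral.integral_nonneg (by norm_num)
    fun u _ => abs_nonneg (f u)).trans (hC 0)
  set m : ℝ → ℝ → ℝ := fun t H => H⁻¹ * ∫ u in t..(t + H), f u with hm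
  -- the same length
  have key : ∀ δ, 0 < δ → ∀ t t' H : ℝ, 1 ≤ H → 16 * (C * (Λ (δ / 16) + 1)) ≤ δ * H →
      |m t H - m t' H| ≤ δ / 4 := by
    intro δ hδ t t' H hH1 hH
    have h1 := mean_shift hf (ε := δ / 16) (by positivity) (hΛ _ (by positivity)) hC
      (hap _ (by positivity)) t t' (H := H) (by linarith)
    have e1 : m t H - m t' H = H⁻¹ * ((∫ u in t..(t + H), f u) - ∫ u in t'..(t' + H), f u) := by
      simp only [m]
      ring
    rw [e1, abs_mul, abs_of_pos (by positivity : 0 < H⁻¹), inv_mul_le_iff₀ (by linarith)]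
    refine h1.trans ?_
    nlinarith
  -- multiples of the length
  have mult : ∀ δ, 0 < δ → ∀ H : ℝ, 1 ≤ H → 16 * (C * (Λ (δ / 16) + 1)) ≤ δ * H →
      ∀ n : ℕ, |(∫ u in (0 : ℝ)..(n * H), f u) - n * H * m 0 H| ≤ n * H * (δ / 4) := by
    intro δ hδ H hH1 hH n
    induction n with
    | zero => simp
    | succ n ih =>
      have e1 : ∫ u in (0 : ℝ)..((n + 1 : ℕ) * H), f u =
          (∫ u in (0 : ℝ)..(n * H), f u) + ∫ u in (n * H)..(n * H + H), f u := by
        rw [intervalIntegral.integral_add_adjacent_intervals (hf _ _) (hf _ _)]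
        congr 1
        push_cast
        ring
      have e2 : ∫ u in (n * H)..(n * H + H), f u = H * m (n * H) H := by
        simp only [m]
        field_simp
      have h1 := key δ hδ (n * H) 0 H hH1 hH
      rw [e1, e2]
      have e3 : (∫ u in (0 : ℝ)..(n * H), f u) + H * m (n * H) H - ((n + 1 : ℕ) : ℝ) * H * m 0 H =
          ((∫ u in (0 : ℝ)..(n * H), f u) - n * H * m 0 H) + H * (m (n * H) H - m 0 H) := by
        push_cast
        ring
      rw [e3]
      refine (abs_add_le _ _).trans ?_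
      rw [abs_mul, abs_of_pos (by linarith : 0 < H)]
      push_cast
      nlinarith
  have mbd : ∀ H : ℝ, 1 ≤ H → |m 0 H| ≤ 2 * C := by
    intro H hH
    simp only [m]
    rw [abs_mul, abs_of_pos (by positivity : 0 < H⁻¹), inv_mul_le_iff₀ (by linarith)]
    refine (intervalIntegral.abs_integral_le_integral_abs (by linarith)).trans ?_
    refine (int_le (fun a c => (hf a c).abs) (fun u => abs_nonneg _) hC 0 (by linarith)).trans ?_
    nlinarith
  -- all large lengths
  have large : ∀ δ, 0 < δ → ∀ H : ℝ, 1 ≤ H → 16 * (C * (Λ (δ / 16) + 1)) ≤ δ * H →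
      ∃ H₁ : ℝ, ∀ H' : ℝ, H₁ ≤ H' → |m 0 H' - m 0 H| ≤ δ / 2 := by
    intro δ hδ H hH1 hH
    refine ⟨max 1 (4 * (C * (H + 1) + H * (2 * C)) / δ), fun H' hH' => ?_⟩
    have h1 : 1 ≤ H' := (le_max_left _ _).trans hH'
    have h2 : 4 * (C * (H + 1) + H * (2 * C)) / δ ≤ H' := (le_max_right _ _).trans hH'
    rw [div_le_iff₀ hδ] at h2
    set n := ⌊H' / H⌋₊ with hn
    have hHp : 0 < H := by linarith
    have h3 : (n : ℝ) ≤ H' / H := Nat.floor_le (by positivity)
    have h4 : H' / H < n + 1 := Nat.lt_floor_add_one _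
    rw [le_div_iff₀ hHp] at h3
    rw [div_lt_iff₀ hHp] at h4
    have h5 := mult δ hδ H hH1 hH n
    have h6 : |∫ u in (n * H)..H', f u| ≤ C * (H + 1) := by
      have e1 : H' = n * H + (H' - n * H) := by ring
      rw [e1]
      refine (intervalIntegral.abs_integral_le_integral_abs (by linarith)).trans ?_
      refine (int_le (fun a c => (hf a c).abs) (fun u => abs_nonneg _) hC _ (by linarith)).trans ?_
      exact mul_le_mul_of_nonneg_left (by linarith) hC0
    have e2 : m 0 H' - m 0 H = H'⁻¹ * (((∫ u in (0 : ℝ)..(n * H), f u) - n * H * m 0 H) +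
        (∫ u in (n * H)..H', f u) - (H' - n * H) * m 0 H) := by
      have e3 := intervalIntegral.integral_add_adjacent_intervals (hf 0 (n * H)) (hf (n * H) H')
      have e4 : m 0 H' = H'⁻¹ * ((∫ u in (0 : ℝ)..(n * H), f u) + ∫ u in (n * H)..H', f u) := by
        simp only [m]
        rw [e3, zero_add]
      rw [e4]
      field_simp
      ring
    rw [e2, abs_mul, abs_of_pos (by positivity : 0 < H'⁻¹), inv_mul_le_iff₀ (by linarith)]
    have h7 := mbd H hH1
    have h8 : |(H' - n * H) * m 0 H| ≤ H * (2 * C) := by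
      rw [abs_mul, abs_of_nonneg (by linarith)]
      exact mul_le_mul (by linarith) h7 (abs_nonneg _) hHp.le
    have h9 : |((∫ u in (0 : ℝ)..(n * H), f u) - n * H * m 0 H) +
        (∫ u in (n * H)..H', f u) - (H' - n * H) * m 0 H| ≤
        n * H * (δ / 4) + C * (H + 1) + H * (2 * C) := by
      refine (abs_sub _ _).trans (add_le_add ((abs_add_le _ _).trans (add_le_add h5 h6)) h8)
    refine h9.trans ?_
    nlinarith
  -- the means form a Cauchy net
  have hex : ∀ δ, 0 < δ → ∃ H : ℝ, 1 ≤ H ∧ 16 * (C * (Λ (δ / 16) + 1)) ≤ δ * H := by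
    intro δ hδ
    refine ⟨max 1 (16 * (C * (Λ (δ / 16) + 1)) / δ), le_max_left _ _, ?_⟩
    have := le_max_right 1 (16 * (C * (Λ (δ / 16) + 1)) / δ)
    rw [div_le_iff₀ hδ] at this
    linarith
  have hcau : Cauchy (map (m 0) atTop) := by
    rw [Metric.cauchy_iff]
    refine ⟨inferInstance, fun ε hε => ?_⟩
    obtain ⟨H, hH1, hH⟩ := hex (ε / 2) (by positivity)
    obtain ⟨H₁, h⟩ := large (ε / 2) (by positivity) H hH1 hH
    refine ⟨m 0 '' Ici H₁, image_mem_map (Ici_mem_atTop H₁), ?_⟩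
    rintro _ ⟨x, hx, rfl⟩ _ ⟨y, hy, rfl⟩
    have h1 := h x hx
    have h2 := h y hy
    rw [Real.dist_eq]
    have e : m 0 x - m 0 y = (m 0 x - m 0 H) - (m 0 y - m 0 H) := by ring
    rw [e]
    refine lt_of_le_of_lt (abs_sub _ _) ?_
    linarith
  obtain ⟨μ, hμ⟩ := CompleteSpace.complete hcau
  refine ⟨μ, fun δ hδ t H hH1 hH => ?_⟩
  have h1 := key δ hδ t 0 H hH1 hH
  obtain ⟨H₁, h2⟩ := large δ hδ H hH1 hH
  have h3 : |μ - m 0 H| ≤ δ / 2 := by
    have h4 : Tendsto (fun x => |m 0 x - m 0 H|) atTop (𝓝 |μ - m 0 H|) :=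
      ((Filter.Tendsto.sub_const hμ _)).abs
    refine le_of_tendsto h4 ?_
    filter_upwards [Ici_mem_atTop H₁] with x hx using h2 x hx
  change |m t H - μ| ≤ δ
  have e : m t H - μ = (m t H - m 0 H) - (μ - m 0 H) := by ring
  rw [e]
  refine (abs_sub _ _).trans ?_
  linarith

end Pool.Agent.U823.UA
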