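import Pool.Agent.U823.UA.Fac
import Pool.Agent.U823.UA.Mean

/-!
# Mean values of functions of the logarithm of the modulus on the edge
-/

set_option autoImplicit false

namespace Pool.Agent.U823.UA

open NumberField IsDedekindDomain MeasureTheory Filter Topology Set
open Pool.Agent.TH339.MP Pool.Agent.TH345.ET Pool.Agent.U823.EW

lemma abs_le_exp {r : ℝ} (hr : 0 < r) (x : ℝ) :
    |x| ≤ (Real.exp (r * x) + Real.exp (-r * x)) / r := by
  rw [le_div_iff₀ hr]
  have h1 := Real.add_one_le_exp (r * x)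
  have h2 := Real.add_one_le_exp (-r * x)
  have h3 := Real.exp_pos (r * x)
  have h4 := Real.exp_pos (-r * x)
  rcases abs_cases x with ⟨h, _⟩ | ⟨h, _⟩ <;> rw [h] <;> nlinarith

lemma abs_exp_sub (x y : ℝ) :
    |Real.exp x - Real.exp y| ≤ |x - y| * (Real.exp x + Real.exp y) := by
  have key : ∀ x y : ℝ, Real.exp x - Real.exp y ≤ |x - y| * (Real.exp x + Real.exp y) := by
    intro x y
    have h1 := Real.add_one_le_exp (y - x)
    have h2 : Real.exp y = Real.exp x * Real.exp (y - x) := by rw [← Real.exp_add]; congr 1; ring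
    have h3 := Real.exp_pos x
    have h4 := Real.exp_pos y
    have h5 : Real.exp x - Real.exp y ≤ Real.exp x * (x - y) := by
      rw [h2]
      nlinarith
    have h6 := le_abs_self (x - y)
    have h7 := abs_nonneg (x - y)
    nlinarith
  rw [abs_sub_le_iff]
  refine ⟨key x y, ?_⟩
  have := key y x
  rw [abs_sub_comm] at this
  linarith

section
variable {K : Type} [Field K] [NumberField K]
  {W : HeightOneSpectrum (𝓞 K) → WeierstrassCurve (𝓞 K)} {b : PP → ℂ}

lemma one_le_finrank : 1 ≤ Module.finrank ℚ K := Module.finrank_pos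

lemma bv_ne (u : ℝ) : bv b (hE W) u ≠ 0 :=
  mul_ne_zero (hE_ne W (by unfold ep; simp)) (Complex.exp_ne_zero _)

lemma bv_meas (hb : ∀ x, ‖b x‖ ≤ ((Module.finrank ℚ K : ℝ) * 2) / (x.2 + 1 : ℕ)) :
    AEMeasurable (bv b (hE W)) := by
  have h1 : Measurable fun u : ℝ => hE W (ep u) := by
    refine Continuous.measurable ?_
    rw [continuous_iff_continuousAt]
    intro u
    refine ContinuousAt.comp (g := hE W) (f := ep) (hE_analytic W u).continuousAt ?_
    unfold ep
    fun_prop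
  exact h1.aemeasurable.mul (Complex.measurable_exp.comp_aemeasurable (boundary hb).1)

lemma Lg_meas (hb : ∀ x, ‖b x‖ ≤ ((Module.finrank ℚ K : ℝ) * 2) / (x.2 + 1 : ℕ)) :
    AEMeasurable (Lg W b) := Real.measurable_log.comp_aemeasurable (bv_meas hb).norm

lemma pow_eq_exp (r u : ℝ) : ‖bv b (hE W) u‖ ^ r = Real.exp (r * Lg W b u) := by
  unfold Lg
  rw [Real.rpow_def_of_pos (norm_pos_iff.2 (bv_ne u)), mul_comm]

lemma pow_integrable (hb : ∀ x, ‖b x‖ ≤ ((Module.finrank ℚ K : ℝ) * 2) / (x.2 + 1 : ℕ))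
    {r : ℝ} (hr : 4 * Module.finrank ℚ K * |r| ≤ 1) (a c : ℝ) :
    IntervalIntegrable (fun u => Real.exp (r * Lg W b u)) volume a c := by
  have hd : (1 : ℝ) ≤ Module.finrank ℚ K := by exact_mod_cast one_le_finrank (K := K)
  have e1 : (fun u => Real.exp (r * Lg W b u)) =
      fun u => gw W r u * ‖Complex.exp (bl b u)‖ ^ r := by
    funext u
    rw [← pow_eq_exp, norm_bv]
  rw [e1]
  have h1 : |r| * ((Module.finrank ℚ K : ℝ) * 2) < 1 := by nlinarith [abs_nonneg r]
  have h2 : 2 * (Module.finrank ℚ K : ℝ) * |r| ≤ 1 := by nlinarith [abs_nonneg r]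
  rcases le_total a c with h | h
  · exact integrable hb h1 (gw_cont W r) (gw_bd W h2) h
  · exact (integrable hb h1 (gw_cont W r) (gw_bd W h2) h).symm

lemma pow_bound (hb : ∀ x, ‖b x‖ ≤ ((Module.finrank ℚ K : ℝ) * 2) / (x.2 + 1 : ℕ))
    {r : ℝ} (hr : 4 * Module.finrank ℚ K * |r| ≤ 1) (t : ℝ) :
    ∫ u in t..(t + 1), Real.exp (r * Lg W b u) ≤ 288000 := by
  have hd : (1 : ℝ) ≤ Module.finrank ℚ K := by exact_mod_cast one_le_finrank (K := K)
  have e1 : (fun u => Real.exp (r * Lg W b u)) =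
      fun u => gw W r u * ‖Complex.exp (bl b u)‖ ^ r := by
    funext u
    rw [← pow_eq_exp, norm_bv]
  rw [e1]
  have h1 : |r| * ((Module.finrank ℚ K : ℝ) * 2) < 1 := by nlinarith [abs_nonneg r]
  have h2 : 2 * (Module.finrank ℚ K : ℝ) * |r| ≤ 1 := by nlinarith [abs_nonneg r]
  have h3 := (long hb h1 (gw_cont W r) (gw_bd W h2) t 2).2
  have e2 : t + ((2 : ℕ) : ℝ) / 2 = t + 1 := by norm_num
  rw [e2] at h3
  refine h3.trans ?_
  have h4 : 1 / 2 ≤ 1 - |r| * ((Module.finrank ℚ K : ℝ) * 2) := by linarith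
  rw [Nat.cast_ofNat, div_self (by norm_num : (2 : ℝ) ≠ 0), mul_one, div_le_iff₀ (by linarith)]
  linarith

lemma Lg_integrable (hb : ∀ x, ‖b x‖ ≤ ((Module.finrank ℚ K : ℝ) * 2) / (x.2 + 1 : ℕ))
    (a c : ℝ) : IntervalIntegrable (Lg W b) volume a c := by
  have hd : (1 : ℝ) ≤ Module.finrank ℚ K := by exact_mod_cast one_le_finrank (K := K)
  set r : ℝ := 1 / (4 * Module.finrank ℚ K) with hr
  have hr0 : 0 < r := by positivity
  have hr1 : 4 * Module.finrank ℚ K * |r| ≤ 1 := by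
    rw [abs_of_pos hr0, hr]
    field_simp
    exact le_rfl
  have h1 := ((pow_integrable (W := W) hb hr1 a c).add
    (pow_integrable (W := W) hb (r := -r) (by rwa [abs_neg]) a c)).div_const r
  refine h1.mono_fun (Lg_meas hb).aestronglyMeasurable.restrict ?_
  filter_upwards with u
  rw [Real.norm_eq_abs, Real.norm_eq_abs]
  exact (abs_le_exp hr0 _).trans (le_abs_self _)

lemma Lg_bound (hb : ∀ x, ‖b x‖ ≤ ((Module.finrank ℚ K : ℝ) * 2) / (x.2 + 1 : ℕ)) (t : ℝ) :
    ∫ u in t..(t + 1), |Lg W b u| ≤ 2304000 * Module.finrank ℚ K := by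
  have hd : (1 : ℝ) ≤ Module.finrank ℚ K := by exact_mod_cast one_le_finrank (K := K)
  set r : ℝ := 1 / (4 * Module.finrank ℚ K) with hr
  have hr0 : 0 < r := by positivity
  have hr1 : 4 * Module.finrank ℚ K * |r| ≤ 1 := by
    rw [abs_of_pos hr0, hr]
    field_simp
    exact le_rfl
  have hr2 : 4 * Module.finrank ℚ K * |(-r)| ≤ 1 := by rwa [abs_neg]
  have i1 := pow_integrable (W := W) hb hr1 t (t + 1)
  have i2 := pow_integrable (W := W) hb hr2 t (t + 1)
  have h1 : ∫ u in t..(t + 1), |Lg W b u| ≤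
      ∫ u in t..(t + 1), (Real.exp (r * Lg W b u) + Real.exp (-r * Lg W b u)) / r :=
    intervalIntegral.integral_mono_on (by linarith) (Lg_integrable hb _ _).abs
      ((i1.add i2).div_const r) fun u _ => abs_le_exp hr0 _
  refine h1.trans ?_
  rw [intervalIntegral.integral_div, intervalIntegral.integral_add i1 i2, div_le_iff₀ hr0]
  have h2 := pow_bound (W := W) hb hr1 t
  have h3 := pow_bound (W := W) hb hr2 t
  have e1 : 2304000 * (Module.finrank ℚ K : ℝ) * r = 576000 := by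
    rw [hr]
    field_simp
    norm_num
  rw [e1]
  linarith

/-- the `L¹` size of the difference -/
lemma diff_le (hb : ∀ x, ‖b x‖ ≤ ((Module.finrank ℚ K : ℝ) * 2) / (x.2 + 1 : ℕ))
    {τ η : ℝ} (hη : 0 ≤ η)
    (h : ∀ t : ℝ, ∫⁻ u in Icc t (t + 1), ENNReal.ofReal ((Lg W b (u + τ) - Lg W b u) ^ 2) ≤
      ENNReal.ofReal η) (t : ℝ) :
    IntervalIntegrable (fun u => (Lg W b (u + τ) - Lg W b u) ^ 2) volume t (t + 1) ∧
    ∫ u in t..(t + 1), (Lg W b (u + τ) - Lg W b u) ^ 2 ≤ η := by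
  have hm : AEStronglyMeasurable (fun u => (Lg W b (u + τ) - Lg W b u) ^ 2) volume := by
    have h1 : AEMeasurable (fun u => Lg W b (u + τ)) volume :=
      (Lg_meas hb).comp_quasiMeasurePreserving
        (measurePreserving_add_right volume τ).quasiMeasurePreserving
    exact ((h1.sub (Lg_meas hb)).pow_const 2).aestronglyMeasurable
  have hI : IntegrableOn (fun u => (Lg W b (u + τ) - Lg W b u) ^ 2) (Icc t (t + 1)) := by
    refine ⟨hm.restrict, ?_⟩
    rw [hasFiniteIntegral_iff_ofReal (ae_of_all _ fun u => sq_nonneg _)]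
    exact (h t).trans_lt ENNReal.ofReal_lt_top
  refine ⟨(intervalIntegrable_iff_integrableOn_Icc_of_le (by linarith)).2 hI, ?_⟩
  rw [intervalIntegral.integral_of_le (by linarith), ← integral_Icc_eq_integral_Ioc,
    integral_eq_lintegral_of_nonneg_ae (ae_of_all _ fun u => sq_nonneg _) hm.restrict]
  exact ENNReal.toReal_le_of_le_ofReal hη (h t)

/-- functions of the logarithm -/
theorem mean_lip (hb : ∀ x, ‖b x‖ ≤ ((Module.finrank ℚ K : ℝ) * 2) / (x.2 + 1 : ℕ))
    (Λ : ℝ → ℝ) (hΛ : ∀ ε, 0 < ε → 0 ≤ Λ ε)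
    (hap : ∀ ε, 0 < ε → ∀ a : ℝ, ∃ τ ∈ Icc a (a + Λ ε), ∀ t : ℝ,
      ∫⁻ u in Icc t (t + 1), ENNReal.ofReal ((Lg W b (u + τ) - Lg W b u) ^ 2) ≤
        ENNReal.ofReal (ε ^ 2)) {F : ℝ → ℝ} (hF : ∀ x y, |F x - F y| ≤ |x - y|) :
    ∃ μ : ℝ, ∀ δ, 0 < δ → ∀ t H : ℝ, 1 ≤ H →
      16 * ((2304000 * Module.finrank ℚ K) * (Λ (δ / 16) + 1)) ≤ δ * H →
      |H⁻¹ * (∫ u in t..(t + H), F (Lg W b u)) - μ| ≤ δ := by
  have hFc : Continuous F := by
    have : LipschitzWith 1 F := LipschitzWith.of_dist_le_mul fun x y => by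
      rw [NNReal.coe_one, one_mul, Real.dist_eq, Real.dist_eq]
      exact hF x y
    exact this.continuous
  have hi : ∀ a c, IntervalIntegrable (fun u => F (Lg W b u) - F 0) volume a c := by
    intro a c
    refine (Lg_integrable (W := W) hb a c).abs.mono_fun
      (((hFc.measurable.comp_aemeasurable (Lg_meas hb)).sub_const _).aestronglyMeasurable.restrict)
      ?_
    filter_upwards with u
    rw [Real.norm_eq_abs, Real.norm_eq_abs, abs_abs]
    have := hF (Lg W b u) 0
    rwa [sub_zero] at this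
  have hC : ∀ t, ∫ u in t..(t + 1), |F (Lg W b u) - F 0| ≤ 2304000 * Module.finrank ℚ K := by
    intro t
    refine le_trans ?_ (Lg_bound (W := W) hb t)
    refine intervalIntegral.integral_mono_on (by linarith) (hi _ _).abs
      (Lg_integrable hb _ _).abs fun u _ => ?_
    have := hF (Lg W b u) 0
    rwa [sub_zero] at this
  obtain ⟨μ, hμ⟩ := mean_exists hi hC Λ hΛ (by
    intro ε hε a
    obtain ⟨τ, hτ, h⟩ := hap ε hε a
    refine ⟨τ, hτ, fun t => ?_⟩
    obtain ⟨i1, h1⟩ := diff_le hb (by positivity) h t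
    have i2 : IntervalIntegrable (fun u => F (Lg W b (u + τ)) - F 0) volume t (t + 1) := by
      have := (hi (t + τ) (t + 1 + τ)).comp_add_right τ
      simpa using this
    have h2 : ∫ u in t..(t + 1), |(F (Lg W b (u + τ)) - F 0) - (F (Lg W b u) - F 0)| ≤
        ∫ u in t..(t + 1), (ε / 2 + (1 / (2 * ε)) * (Lg W b (u + τ) - Lg W b u) ^ 2) := by
      refine intervalIntegral.integral_mono_on (by linarith) (i2.sub (hi _ _)).abs
        (intervalIntegrable_const.add (i1.const_mul _)) fun u _ => ?_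
      have h3 := hF (Lg W b (u + τ)) (Lg W b u)
      have e1 : (F (Lg W b (u + τ)) - F 0) - (F (Lg W b u) - F 0) =
          F (Lg W b (u + τ)) - F (Lg W b u) := by ring
      rw [e1]
      refine h3.trans ?_
      set x := Lg W b (u + τ) - Lg W b u with hx
      have h4 : 0 ≤ (|x| - ε) ^ 2 := sq_nonneg _
      have h5 : |x| ^ 2 = x ^ 2 := sq_abs x
      have h6 : ε / 2 + 1 / (2 * ε) * x ^ 2 = (ε ^ 2 + x ^ 2) / (2 * ε) := by
        field_simp
      rw [h6, le_div_iff₀ (by positivity)]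
      nlinarith
    refine h2.trans ?_
    rw [intervalIntegral.integral_add intervalIntegrable_const (i1.const_mul _),
      intervalIntegral.integral_const, intervalIntegral.integral_const_mul]
    have e2 : (t + 1 - t) • (ε / 2) = ε / 2 := by
      rw [smul_eq_mul]
      ring
    rw [e2]
    have h7 : 1 / (2 * ε) * ∫ u in t..(t + 1), (Lg W b (u + τ) - Lg W b u) ^ 2 ≤
        1 / (2 * ε) * ε ^ 2 := mul_le_mul_of_nonneg_left h1 (by positivity)
    have e3 : 1 / (2 * ε) * ε ^ 2 = ε / 2 := by field_simp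
    linarith)
  refine ⟨μ + F 0, fun δ hδ t H hH hH2 => ?_⟩
  have h1 := hμ δ hδ t H hH hH2
  have hi' : IntervalIntegrable (fun u => F (Lg W b u)) volume t (t + H) := by
    have := (hi t (t + H)).add (intervalIntegrable_const (c := F 0))
    simpa using this
  rw [intervalIntegral.integral_sub hi' intervalIntegrable_const,
    intervalIntegral.integral_const] at h1
  have e1 : H⁻¹ * ((∫ u in t..(t + H), F (Lg W b u)) - (t + H - t) • F 0) - μ =
      H⁻¹ * (∫ u in t..(t + H), F (Lg W b u)) - (μ + F 0) := by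
    rw [smul_eq_mul]
    field_simp
    ring
  rwa [e1] at h1

/-- powers of the modulus -/
theorem mean_pow (hb : ∀ x, ‖b x‖ ≤ ((Module.finrank ℚ K : ℝ) * 2) / (x.2 + 1 : ℕ))
    (Λ : ℝ → ℝ) (hΛ : ∀ ε, 0 < ε → 0 ≤ Λ ε)
    (hap : ∀ ε, 0 < ε → ∀ a : ℝ, ∃ τ ∈ Icc a (a + Λ ε), ∀ t : ℝ,
      ∫⁻ u in Icc t (t + 1), ENNReal.ofReal ((Lg W b (u + τ) - Lg W b u) ^ 2) ≤
        ENNReal.ofReal (ε ^ 2 / 1152000)) {r : ℝ} (hr : 8 * Module.finrank ℚ K * |r| ≤ 1) :
    ∃ μ : ℝ, ∀ δ, 0 < δ → ∀ t H : ℝ, 1 ≤ H →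
      16 * (288000 * (Λ (δ / 16) + 1)) ≤ δ * H →
      |H⁻¹ * (∫ u in t..(t + H), ‖bv b (hE W) u‖ ^ r) - μ| ≤ δ := by
  have hd : (1 : ℝ) ≤ Module.finrank ℚ K := by exact_mod_cast one_le_finrank (K := K)
  have hr4 : 4 * Module.finrank ℚ K * |r| ≤ 1 := by nlinarith [abs_nonneg r]
  have hr1 : |r| ≤ 1 := by nlinarith [abs_nonneg r]
  have hr2 : 4 * Module.finrank ℚ K * |2 * r| ≤ 1 := by
    rw [abs_mul, abs_two]
    linarith
  have e0 : (fun u => ‖bv b (hE W) u‖ ^ r) = fun u => Real.exp (r * Lg W b u) :=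
    funext fun u => pow_eq_exp r u
  rw [e0]
  refine mean_exists (pow_integrable (W := W) hb hr4) (C := 288000) ?_ Λ hΛ ?_
  · intro t
    refine le_trans (le_of_eq ?_) (pow_bound (W := W) hb hr4 t)
    congr 1
    funext u
    exact abs_of_pos (Real.exp_pos _)
  · intro ε hε a
    obtain ⟨τ, hτ, h⟩ := hap ε hε a
    refine ⟨τ, hτ, fun t => ?_⟩
    obtain ⟨i1, h1⟩ := diff_le hb (by positivity) h t
    have sh : ∀ {r : ℝ}, 4 * Module.finrank ℚ K * |r| ≤ 1 →
        IntervalIntegrable (fun u => Real.exp (r * Lg W b (u + τ))) volume t (t + 1) ∧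
        ∫ u in t..(t + 1), Real.exp (r * Lg W b (u + τ)) ≤ 288000 := by
      intro r hr
      constructor
      · have := (pow_integrable (W := W) hb hr (t + τ) (t + 1 + τ)).comp_add_right τ
        simpa using this
      · have e1 : ∫ u in t..(t + 1), Real.exp (r * Lg W b (u + τ)) =
            ∫ u in (t + τ)..(t + 1 + τ), Real.exp (r * Lg W b u) :=
          intervalIntegral.integral_comp_add_right (fun u => Real.exp (r * Lg W b u)) τ
        rw [e1, show t + 1 + τ = t + τ + 1 by ring]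
        exact pow_bound hb hr _
    set κ : ℝ := ε / 1152000 with hκ
    have hκ0 : 0 < κ := by positivity
    obtain ⟨i2, h2⟩ := sh hr2
    have i3 := pow_integrable (W := W) hb hr2 t (t + 1)
    have h3 := pow_bound (W := W) hb hr2 t
    have h4 : ∫ u in t..(t + 1), |Real.exp (r * Lg W b (u + τ)) - Real.exp (r * Lg W b u)| ≤
        ∫ u in t..(t + 1), (1 / (2 * κ) * (Lg W b (u + τ) - Lg W b u) ^ 2 +
          κ * (Real.exp (2 * r * Lg W b (u + τ)) + Real.exp (2 * r * Lg W b u))) := by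
      refine intervalIntegral.integral_mono_on (by linarith)
        ((sh hr4).1.sub (pow_integrable hb hr4 _ _)).abs
        ((i1.const_mul _).add ((i2.add i3).const_mul _)) fun u _ => ?_
      set x := Lg W b (u + τ) with hx
      set y := Lg W b u with hy
      have h5 := abs_exp_sub (r * x) (r * y)
      have e1 : Real.exp (2 * r * x) = Real.exp (r * x) ^ 2 := by
        rw [← Real.exp_nat_mul]
        congr 1
        push_cast
        ring
      have e2 : Real.exp (2 * r * y) = Real.exp (r * y) ^ 2 := by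
        rw [← Real.exp_nat_mul]
        congr 1
        push_cast
        ring
      rw [e1, e2]
      set A := Real.exp (r * x) with hA
      set B := Real.exp (r * y) with hB
      have hA0 : 0 < A := Real.exp_pos _
      have hB0 : 0 < B := Real.exp_pos _
      have e3 : |r * x - r * y| = |r| * |x - y| := by rw [← mul_sub, abs_mul]
      have h6 : |r * x - r * y| ≤ |x - y| := by
        rw [e3]
        exact mul_le_of_le_one_left (abs_nonneg _) hr1
      refine (h5.trans (mul_le_mul_of_nonneg_right h6 (by positivity))).trans ?_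
      have h7 : |x - y| ^ 2 = (x - y) ^ 2 := sq_abs _
      have h8 : 0 ≤ (|x - y| - κ * (A + B)) ^ 2 := sq_nonneg _
      have e4 : 1 / (2 * κ) * (x - y) ^ 2 + κ * (A ^ 2 + B ^ 2) =
          ((x - y) ^ 2 + 2 * κ ^ 2 * (A ^ 2 + B ^ 2)) / (2 * κ) := by
        field_simp
      rw [e4, le_div_iff₀ (by positivity)]
      have h9 : (A + B) ^ 2 ≤ 2 * (A ^ 2 + B ^ 2) := by nlinarith [sq_nonneg (A - B)]
      have h10 : κ ^ 2 * (A + B) ^ 2 ≤ κ ^ 2 * (2 * (A ^ 2 + B ^ 2)) :=
        mul_le_mul_of_nonneg_left h9 (by positivity)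
      nlinarith
    refine h4.trans ?_
    rw [intervalIntegral.integral_add (i1.const_mul _) ((i2.add i3).const_mul _),
      intervalIntegral.integral_const_mul, intervalIntegral.integral_const_mul,
      intervalIntegral.integral_add i2 i3]
    have h7 : 1 / (2 * κ) * ∫ u in t..(t + 1), (Lg W b (u + τ) - Lg W b u) ^ 2 ≤
        1 / (2 * κ) * (ε ^ 2 / 1152000) := mul_le_mul_of_nonneg_left h1 (by positivity)
    have e3 : 1 / (2 * κ) * (ε ^ 2 / 1152000) = ε / 2 := by
      rw [hκ]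
      field_simp
    have h8 : κ * ((∫ u in t..(t + 1), Real.exp (2 * r * Lg W b (u + τ))) +
        ∫ u in t..(t + 1), Real.exp (2 * r * Lg W b u)) ≤ κ * 576000 :=
      mul_le_mul_of_nonneg_left (by linarith) hκ0.le
    have e4 : κ * 576000 = ε / 2 := by
      rw [hκ]
      ring
    linarith

end

end Pool.Agent.U823.UA
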